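import Mathlib

namespace Pool.Agent.Results.MP_798c84_an.NotEqual

open Finset

/-- Real `n × m` matrices. -/
abbrev Mat (n m : ℕ) := Matrix (Fin n) (Fin m) ℝ

/-- The Euclidean (Frobenius) distance `|A - B|`. -/
noncomputable def frobDist {n m : ℕ} (A B : Mat n m) : ℝ :=
  Real.sqrt (∑ i, ∑ j, (A i j - B i j) ^ 2)

/-- The distance `d_K(A) = min_{B ∈ K} |A - B|`. -/
noncomputable def distTo {n m : ℕ} (K : Set (Mat n m)) (A : Mat n m) : ℝ :=
  sInf ((fun B => frobDist A B) '' K)

/-- `f` is rank-one convex: `t ↦ f(A + tB)` is convex whenever `rank B = 1`. -/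
def RankOneConvex {n m : ℕ} (f : Mat n m → ℝ) : Prop :=
  ∀ A B : Mat n m, B.rank = 1 → ConvexOn ℝ Set.univ (fun t : ℝ => f (A + t • B))

/-- The rank-one convex hull `conv_rc K`. -/
def rankOneHull {n m : ℕ} (K : Set (Mat n m)) : Set (Mat n m) :=
  {A | ∀ f : Mat n m → ℝ, RankOneConvex f → f A ≤ sSup (f '' K)}

/-- A finitely supported signed measure on matrices: `ν = ∑_B ν(B) δ_B`. -/
abbrev Meas (n m : ℕ) := Mat n m →₀ ℝ

/-- `⟨ν, f⟩ = ∫ f dν`. -/
noncomputable def pairing {n m : ℕ} (ν : Meas n m) (f : Mat n m → ℝ) : ℝ :=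
  ν.sum fun B w => w * f B

/-- The barycenter `∫ X dν(X)`. -/
noncomputable def barycenter {n m : ℕ} (ν : Meas n m) : Mat n m :=
  ν.sum fun B w => w • B

/-- Elementary splitting: the whole atom `ν(B) δ_B` is replaced by
`ν(B) (μ δ_C + (1-μ) δ_D)`, where `B = μ C + (1-μ) D`, `0 < μ < 1`, `rank (C - D) = 1`. -/
def Splitting {n m : ℕ} (ν ν' : Meas n m) : Prop :=
  ∃ (B C D : Mat n m) (μ : ℝ), 0 < ν B ∧ 0 < μ ∧ μ < 1 ∧ B = μ • C + (1 - μ) • D ∧
    (C - D).rank = 1 ∧
    ν' = ν.erase B + (Finsupp.single C (ν B * μ) + Finsupp.single D (ν B * (1 - μ)))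

/-- The more permissive splitting in which only a part `lam ≤ ν(B)` of the mass at `B` is
split. (This is the elementary splitting when the atoms `B_j` of `ν = ∑ λ_j δ_{B_j}` are
allowed to coincide.) -/
def PartSplitting {n m : ℕ} (ν ν' : Meas n m) : Prop :=
  ∃ (B C D : Mat n m) (μ lam : ℝ), 0 < lam ∧ lam ≤ ν B ∧ 0 < μ ∧ μ < 1 ∧
    B = μ • C + (1 - μ) • D ∧ (C - D).rank = 1 ∧
    ν' = ν - Finsupp.single B lam +
      (Finsupp.single C (lam * μ) + Finsupp.single D (lam * (1 - μ)))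

/-- A laminate of finite order: obtained from a Dirac mass by finitely many splittings. -/
def IsLaminate {n m : ℕ} (step : Meas n m → Meas n m → Prop) (ν : Meas n m) : Prop :=
  ∃ A : Mat n m, Relation.ReflTransGen step (Finsupp.single A 1) ν

/-- The set `L_c(K)`: there is a consecutive sequence of laminates of finite order with
barycenter `A` along which the infimum of `⟨ν_i, d_K^2⟩` is `0`. -/
def consecutiveHull {n m : ℕ} (step : Meas n m → Meas n m → Prop) (K : Set (Mat n m)) :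
    Set (Mat n m) :=
  {A | ∃ ν : ℕ → Meas n m, (∀ i, IsLaminate step (ν i)) ∧ (∀ i, step (ν i) (ν (i + 1))) ∧
    (∀ i, barycenter (ν i) = A) ∧ ⨅ i, pairing (ν i) (fun X => distTo K X ^ 2) = 0}

/-! ### Generalities on pairings -/

section Pairing

variable {n m : ℕ}

lemma pairing_add (ν ν' : Meas n m) (f : Mat n m → ℝ) :
    pairing (ν + ν') f = pairing ν f + pairing ν' f := by
  unfold pairing
  exact Finsupp.sum_add_index' (fun _ => by simp) (fun _ _ _ => by ring)

lemma pairing_sub (ν ν' : Meas n m) (f : Mat n m → ℝ) :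
    pairing (ν - ν') f = pairing ν f - pairing ν' f := by
  unfold pairing
  exact Finsupp.sum_sub_index (fun _ _ _ => by ring)

lemma pairing_single (B : Mat n m) (w : ℝ) (f : Mat n m → ℝ) :
    pairing (Finsupp.single B w) f = w * f B := by
  unfold pairing
  exact Finsupp.sum_single_index (by simp)

lemma barycenter_add (ν ν' : Meas n m) :
    barycenter (ν + ν') = barycenter ν + barycenter ν' := by
  unfold barycenter
  exact Finsupp.sum_add_index' (fun _ => by simp) (fun _ _ _ => add_smul _ _ _)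

lemma barycenter_sub (ν ν' : Meas n m) :
    barycenter (ν - ν') = barycenter ν - barycenter ν' := by
  unfold barycenter
  exact Finsupp.sum_sub_index (fun _ _ _ => sub_smul _ _ _)

lemma barycenter_single (B : Mat n m) (w : ℝ) :
    barycenter (Finsupp.single B w) = w • B := by
  unfold barycenter
  exact Finsupp.sum_single_index (by simp)

lemma splitting_part {ν ν' : Meas n m} (h : Splitting ν ν') : PartSplitting ν ν' := by
  obtain ⟨B, C, D, μ, h0, h1, h2, h3, h4, h5⟩ := h
  refine ⟨B, C, D, μ, ν B, h0, le_rfl, h1, h2, h3, h4, ?_⟩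
  rw [h5]
  congr 1
  rw [eq_sub_iff_add_eq, Finsupp.erase_add_single]

/-- Properties preserved by splittings. -/
structure Good (ν : Meas n m) : Prop where
  nonneg : ∀ B, 0 ≤ ν B
  mass : pairing ν (fun _ => 1) = 1

lemma good_single (A : Mat n m) : Good (Finsupp.single A 1 : Meas n m) := by
  classical
  refine ⟨fun B => ?_, by rw [pairing_single]; norm_num⟩
  rw [Finsupp.single_apply]
  split_ifs <;> norm_num

lemma good_step {ν ν' : Meas n m} (h : PartSplitting ν ν') (hν : Good ν) : Good ν' := by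
  classical
  obtain ⟨B, C, D, μ, lam, h0, h0', h1, h2, h3, h4, h5⟩ := h
  subst h5
  refine ⟨fun X => ?_, ?_⟩
  · simp only [Finsupp.add_apply, Finsupp.sub_apply, Finsupp.single_apply]
    have e1 : 0 ≤ (if C = X then lam * μ else 0) := by
      split_ifs
      · positivity
      · exact le_rfl
    have e2 : 0 ≤ (if D = X then lam * (1 - μ) else 0) := by
      split_ifs
      · exact mul_nonneg h0.le (by linarith)
      · exact le_rfl
    have e3 : 0 ≤ ν X - (if B = X then lam else 0) := by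
      split_ifs with hh
      · rw [← hh]; linarith
      · simpa using hν.nonneg X
    linarith
  · rw [pairing_add, pairing_add, pairing_sub, pairing_single, pairing_single, pairing_single,
      hν.mass]
    ring

lemma barycenter_step {ν ν' : Meas n m} (h : PartSplitting ν ν') :
    barycenter ν' = barycenter ν := by
  obtain ⟨B, C, D, μ, lam, h0, h0', h1, h2, h3, h4, h5⟩ := h
  subst h5
  rw [barycenter_add, barycenter_add, barycenter_sub, barycenter_single, barycenter_single,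
    barycenter_single, h3]
  module

lemma pairing_mono {ν : Meas n m} (hν : ∀ B, 0 ≤ ν B) {f g : Mat n m → ℝ}
    (h : ∀ X, f X ≤ g X) : pairing ν f ≤ pairing ν g := by
  unfold pairing Finsupp.sum
  exact Finset.sum_le_sum fun B _ => mul_le_mul_of_nonneg_left (h B) (hν B)

lemma pairing_affine {ν : Meas n m} (hν : Good ν) (f : Mat n m → ℝ) (a b : ℝ) :
    pairing ν (fun X => a + b * f X) = a + b * pairing ν f := by
  have h1 := hν.mass
  unfold pairing Finsupp.sum at *
  rw [Finset.mul_sum]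
  calc ∑ x ∈ ν.support, ν x * (a + b * f x)
      = ∑ x ∈ ν.support, (a * (ν x * 1) + b * (ν x * f x)) := by
        apply Finset.sum_congr rfl; intros; ring
    _ = a * ∑ x ∈ ν.support, ν x * 1 + ∑ x ∈ ν.support, b * (ν x * f x) := by
        rw [Finset.sum_add_distrib, Finset.mul_sum]
    _ = _ := by rw [h1]; ring

lemma pairing_nonneg {ν : Meas n m} (hν : ∀ B, 0 ≤ ν B) {f : Mat n m → ℝ}
    (h : ∀ X, 0 ≤ f X) : 0 ≤ pairing ν f := by
  unfold pairing Finsupp.sum
  exact Finset.sum_nonneg fun B _ => mul_nonneg (hν B) (h B)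

/-- A rank-one convex function at a convex combination along a rank-one segment. -/
lemma RankOneConvex.le {f : Mat n m → ℝ} (hf : RankOneConvex f) {C D : Mat n m}
    (hr : (C - D).rank = 1) {μ : ℝ} (h0 : 0 ≤ μ) (h1 : μ ≤ 1) :
    f (μ • C + (1 - μ) • D) ≤ μ * f C + (1 - μ) * f D := by
  have h := (hf D (C - D) hr).2 (Set.mem_univ (1 : ℝ)) (Set.mem_univ (0 : ℝ)) h0
    (by linarith : (0 : ℝ) ≤ 1 - μ) (by ring)
  simp only [smul_eq_mul, mul_one, mul_zero, add_zero, one_smul, zero_smul] at h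
  have e1 : D + μ • (C - D) = μ • C + (1 - μ) • D := by module
  have e2 : D + (C - D) = C := by abel
  rw [e1, e2] at h
  exact h

lemma pairing_step {f : Mat n m → ℝ} (hf : RankOneConvex f) {ν ν' : Meas n m}
    (h : PartSplitting ν ν') : pairing ν f ≤ pairing ν' f := by
  obtain ⟨B, C, D, μ, lam, h0, h0', h1, h2, h3, h4, h5⟩ := h
  subst h5
  rw [pairing_add, pairing_add, pairing_sub, pairing_single, pairing_single, pairing_single]
  have := hf.le h4 h1.le h2.le
  rw [← h3] at this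
  nlinarith [mul_le_mul_of_nonneg_left this h0.le]

lemma pairing_chain {f : Mat n m → ℝ} (hf : RankOneConvex f) {ν ν' : Meas n m}
    (h : Relation.ReflTransGen PartSplitting ν ν') : pairing ν f ≤ pairing ν' f := by
  induction h with
  | refl => exact le_rfl
  | tail _ hs ih => exact ih.trans (pairing_step hf hs)

lemma good_chain {ν ν' : Meas n m} (h : Relation.ReflTransGen PartSplitting ν ν')
    (hν : Good ν) : Good ν' := by
  induction h with
  | refl => exact hν
  | tail _ hs ih => exact good_step hs ih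

lemma barycenter_chain {ν ν' : Meas n m} (h : Relation.ReflTransGen PartSplitting ν ν') :
    barycenter ν' = barycenter ν := by
  induction h with
  | refl => rfl
  | tail _ hs ih => rw [barycenter_step hs, ih]

end Pairing


/-! ### A criterion for not belonging to `L_c(K)` -/

section Criterion

variable {n m : ℕ}

lemma first_step {A : Mat n m} {ν' : Meas n m}
    (h : PartSplitting (Finsupp.single A 1) ν') :
    ∃ (C D : Mat n m) (μ lam : ℝ), 0 < lam ∧ lam ≤ 1 ∧ 0 < μ ∧ μ < 1 ∧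
      A = μ • C + (1 - μ) • D ∧ (C - D).rank = 1 ∧
      ∀ f : Mat n m → ℝ, pairing ν' f = (1 - lam) * f A + lam * (μ * f C + (1 - μ) * f D) := by
  classical
  obtain ⟨B, C, D, μ, lam, h0, h0', h1, h2, h3, h4, h5⟩ := h
  have hB : A = B := by
    by_contra hne
    rw [Finsupp.single_apply, if_neg hne] at h0'
    linarith
  subst hB
  rw [Finsupp.single_eq_same] at h0'
  refine ⟨C, D, μ, lam, h0, h0', h1, h2, h3, h4, fun f => ?_⟩
  subst h5
  rw [pairing_add, pairing_add, pairing_sub, pairing_single, pairing_single, pairing_single,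
    pairing_single]
  ring

theorem not_mem_consecutiveHull {K : Set (Mat n m)} {A : Mat n m}
    (hA : 0 < distTo K A)
    (H : ∀ (C D : Mat n m) (μ : ℝ), 0 < μ → μ < 1 → A = μ • C + (1 - μ) • D →
      (C - D).rank = 1 → ∃ f : Mat n m → ℝ, RankOneConvex f ∧ (∀ X, 0 ≤ f X) ∧
        (0 < f C ∨ 0 < f D) ∧
        ∀ ε : ℝ, 0 < ε → ∃ M : ℝ, 0 < M ∧ ∀ X, f X ≤ ε + M * distTo K X ^ 2) :
    A ∉ consecutiveHull PartSplitting K := by
  rintro ⟨ν, hlam, hstep, hbar, hinf⟩
  -- the sequence starts at `δ_A`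
  obtain ⟨A', hA'⟩ := hlam 0
  have hAA : A' = A := by
    have := barycenter_chain hA'
    rw [hbar 0, barycenter_single, one_smul] at this
    exact this.symm
  subst hAA
  have hchain : ∀ i, Relation.ReflTransGen PartSplitting (ν 0) (ν i) := by
    intro i
    induction i with
    | zero => exact Relation.ReflTransGen.refl
    | succ i ih => exact ih.tail (hstep i)
  have hchain1 : ∀ i, Relation.ReflTransGen PartSplitting (ν 1) (ν (i + 1)) := by
    intro i
    induction i with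
    | zero => exact Relation.ReflTransGen.refl
    | succ i ih => exact ih.tail (hstep (i + 1))
  have hgood : ∀ i, Good (ν i) := fun i => good_chain (hchain i) (good_chain hA' (good_single _))
  -- a bound below for everything reachable after a first step
  have key : ∀ ν' : Meas n m, PartSplitting (Finsupp.single A' 1) ν' →
      ∃ c : ℝ, 0 < c ∧ ∀ ξ : Meas n m, Good ξ → Relation.ReflTransGen PartSplitting ν' ξ →
        c ≤ pairing ξ (fun X => distTo K X ^ 2) := by
    intro ν' h'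
    obtain ⟨C, D, μ, lam, hl0, hl1, hμ0, hμ1, hACD, hr, hpair⟩ := first_step h'
    obtain ⟨f, hf, hf0, hfpos, hfg⟩ := H C D μ hμ0 hμ1 hACD hr
    have hc : 0 < pairing ν' f := by
      rw [hpair f]
      have e1 : 0 ≤ (1 - lam) * f A' := mul_nonneg (by linarith) (hf0 _)
      have e2 : 0 < μ * f C + (1 - μ) * f D := by
        rcases hfpos with h | h
        · have := mul_pos hμ0 h
          have := mul_nonneg (by linarith : (0 : ℝ) ≤ 1 - μ) (hf0 D)
          linarith
        · have := mul_pos (by linarith : (0 : ℝ) < 1 - μ) h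
          have := mul_nonneg hμ0.le (hf0 C)
          linarith
      have := mul_pos hl0 e2
      linarith
    set c := pairing ν' f with hcdef
    obtain ⟨M, hM, hfM⟩ := hfg (c / 2) (by linarith)
    refine ⟨c / (2 * M), by positivity, fun ξ hξ hch => ?_⟩
    have h1 : c ≤ pairing ξ f := pairing_chain hf hch
    have h2 : pairing ξ f ≤ c / 2 + M * pairing ξ (fun X => distTo K X ^ 2) := by
      rw [← pairing_affine hξ]
      exact pairing_mono hξ.nonneg hfM
    rw [div_le_iff₀ (by positivity)]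
    nlinarith
  have hpos : ∃ c : ℝ, 0 < c ∧ ∀ i, c ≤ pairing (ν i) (fun X => distTo K X ^ 2) := by
    rcases Relation.ReflTransGen.cases_head hA' with h | ⟨ν', h', h''⟩
    · -- `ν 0 = δ_A`
      have hs : PartSplitting (Finsupp.single A' 1) (ν 1) := by
        rw [h]; exact hstep 0
      obtain ⟨c, hc, hcb⟩ := key (ν 1) hs
      refine ⟨min c (distTo K A' ^ 2), lt_min hc (by positivity), fun i => ?_⟩
      cases i with
      | zero =>
        rw [← h, pairing_single, one_mul]
        exact min_le_right _ _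
      | succ i => exact (min_le_left _ _).trans (hcb _ (hgood _) (hchain1 i))
    · obtain ⟨c, hc, hcb⟩ := key ν' h'
      exact ⟨c, hc, fun i => hcb _ (hgood _) (h''.trans (hchain i))⟩
  obtain ⟨c, hc, hcb⟩ := hpos
  have : c ≤ ⨅ i, pairing (ν i) (fun X => distTo K X ^ 2) := le_ciInf hcb
  rw [hinf] at this
  linarith

lemma consecutiveHull_sub (K : Set (Mat n m)) :
    consecutiveHull Splitting K ⊆ consecutiveHull PartSplitting K := by
  rintro A ⟨ν, h1, h2, h3, h4⟩
  refine ⟨ν, fun i => ?_, fun i => splitting_part (h2 i), h3, h4⟩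
  obtain ⟨B, hB⟩ := h1 i
  exact ⟨B, Relation.ReflTransGen.mono (fun _ _ h => splitting_part h) _ _ hB⟩

end Criterion


/-! ### Rank-one matrices and explicit rank-one convex functions -/

section Functions

variable {p q : ℕ}

lemma minor_eq_zero {R : Mat (p + 2) (q + 2)} (h : R.rank = 1) :
    R 0 0 * R 1 1 = R 0 1 * R 1 0 := by
  by_contra hne
  have h1 := Matrix.rank_submatrix_le R ![0, 1] ![0, 1]
  have h2 : (R.submatrix ![0, 1] ![0, 1]).det ≠ 0 := by
    rw [Matrix.det_fin_two]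
    simp only [Matrix.submatrix_apply, Matrix.cons_val_zero, Matrix.cons_val_one]
    intro h0
    exact hne (by linarith)
  have h3 := Matrix.rank_of_det_ne_zero h2
  simp only [Fintype.card_fin] at h3
  omega

/-- Scalar form of the basic function: `w^2 + det^+ (a, b, c)` on positive definite forms. -/
noncomputable def phi (a b c w : ℝ) : ℝ := w ^ 2 + max 0 (max 0 a * max 0 b - c ^ 2)

lemma phi_nonneg (a b c w : ℝ) : 0 ≤ phi a b c w := by
  unfold phi
  have := le_max_left (0 : ℝ) (max 0 a * max 0 b - c ^ 2)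
  positivity

lemma sq_le_phi (a b c w : ℝ) : w ^ 2 ≤ phi a b c w := by
  unfold phi
  have := le_max_left (0 : ℝ) (max 0 a * max 0 b - c ^ 2)
  linarith

lemma phi_pos_eq {a b c w : ℝ} (ha : 0 < a) (hb : 0 < b) (h : c ^ 2 ≤ a * b) :
    phi a b c w = a * b - c ^ 2 + w ^ 2 := by
  unfold phi
  rw [max_eq_right ha.le, max_eq_right hb.le, max_eq_right (by linarith)]
  ring

lemma det_le_phi_of_pos {a b c w : ℝ} (ha : 0 ≤ a) (hb : 0 ≤ b) :
    a * b - c ^ 2 + w ^ 2 ≤ phi a b c w := by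
  unfold phi
  rw [max_eq_right ha, max_eq_right hb]
  have := le_max_right (0 : ℝ) (a * b - c ^ 2)
  linarith

lemma phi_eq_sq {a b c w : ℝ} (h : a ≤ 0 ∨ b ≤ 0 ∨ a * b ≤ c ^ 2) : phi a b c w = w ^ 2 := by
  unfold phi
  have : max 0 a * max 0 b - c ^ 2 ≤ 0 := by
    rcases h with h | h | h
    · rw [max_eq_left h]; nlinarith [sq_nonneg c]
    · rw [max_eq_left h]; nlinarith [sq_nonneg c]
    · rcases le_total a 0 with ha | ha
      · rw [max_eq_left ha]; nlinarith [sq_nonneg c]
      · rcases le_total b 0 with hb | hb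
        · rw [max_eq_left hb]; nlinarith [sq_nonneg c]
        · rw [max_eq_right ha, max_eq_right hb]; linarith
  rw [max_eq_left this, add_zero]

/-- The sum of two positive definite forms is positive definite. -/
lemma pd_add {A B C a b c : ℝ} (hA : 0 < A) (ha : 0 < a) (h : C ^ 2 < A * B)
    (h' : c ^ 2 < a * b) : (C + c) ^ 2 < (A + a) * (B + b) := by
  have key : 0 ≤ a * A * (A * b + a * B - 2 * (C * c)) := by
    have e1 : a * A * (A * b + a * B - 2 * (C * c))
        = A ^ 2 * (a * b) + a ^ 2 * (A * B) - 2 * (a * C) * (A * c) := by ring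
    have e2 : A ^ 2 * c ^ 2 ≤ A ^ 2 * (a * b) := mul_le_mul_of_nonneg_left h'.le (by positivity)
    have e3 : a ^ 2 * C ^ 2 ≤ a ^ 2 * (A * B) := mul_le_mul_of_nonneg_left h.le (by positivity)
    rw [e1]
    nlinarith [sq_nonneg (A * c - a * C)]
  have key2 : 0 ≤ A * b + a * B - 2 * (C * c) := by
    by_contra hneg
    push Not at hneg
    have := mul_neg_of_pos_of_neg (mul_pos ha hA) hneg
    linarith
  nlinarith

/-- The endpoint estimate. -/
lemma det_le_phi {a b c w a' b' c' w' s : ℝ}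
    (hdir : a' * b' = c' ^ 2 - w' ^ 2)
    (hA : 0 < a + s * a')
    (hC : (c + s * c') ^ 2 < (a + s * a') * (b + s * b')) :
    a * b - c ^ 2 + w ^ 2 ≤ phi a b c w := by
  by_contra hcon
  push Not at hcon
  have h1 := sq_le_phi a b c w
  have h2 : c ^ 2 < a * b := by linarith
  have ha : a < 0 := by
    by_contra hge
    push Not at hge
    have hb : 0 ≤ b := by
      by_contra hb
      push Not at hb
      nlinarith [sq_nonneg c, mul_nonneg hge (by linarith : (0 : ℝ) ≤ -b)]
    exact absurd (det_le_phi_of_pos (c := c) (w := w) hge hb) (by linarith)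
  have hb : b < 0 := by
    by_contra hge
    push Not at hge
    nlinarith [sq_nonneg c, mul_nonneg hge (by linarith : (0 : ℝ) ≤ -a)]
  have h3 := pd_add (A := a + s * a') (B := b + s * b') (C := c + s * c') (a := -a) (b := -b)
    (c := -c) hA (by linarith) hC (by nlinarith)
  have h4 : (c + s * c' + -c) ^ 2 = s ^ 2 * c' ^ 2 := by ring
  have h5 : (a + s * a' + -a) * (b + s * b' + -b) = s ^ 2 * (a' * b') := by ring
  rw [h4, h5, hdir] at h3
  nlinarith [mul_nonneg (sq_nonneg s) (sq_nonneg w')]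

/-- Convexity of `phi` along directions with `a'b' = c'^2 - w'^2`. -/
lemma phi_convex {a0 b0 c0 w0 a1 b1 c1 w1 θ : ℝ} (h0 : 0 ≤ θ) (h1 : θ ≤ 1)
    (hdir : (a1 - a0) * (b1 - b0) = (c1 - c0) ^ 2 - (w1 - w0) ^ 2) :
    phi ((1 - θ) * a0 + θ * a1) ((1 - θ) * b0 + θ * b1) ((1 - θ) * c0 + θ * c1)
      ((1 - θ) * w0 + θ * w1) ≤ (1 - θ) * phi a0 b0 c0 w0 + θ * phi a1 b1 c1 w1 := by
  set a := (1 - θ) * a0 + θ * a1 with ha
  set b := (1 - θ) * b0 + θ * b1 with hb
  set c := (1 - θ) * c0 + θ * c1 with hc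
  set w := (1 - θ) * w0 + θ * w1 with hw
  have hθ : 0 ≤ 1 - θ := by linarith
  by_cases hcase : a ≤ 0 ∨ b ≤ 0 ∨ a * b ≤ c ^ 2
  · rw [phi_eq_sq hcase]
    have e1 := mul_le_mul_of_nonneg_left (sq_le_phi a0 b0 c0 w0) hθ
    have e2 := mul_le_mul_of_nonneg_left (sq_le_phi a1 b1 c1 w1) h0
    have e3 : w ^ 2 ≤ (1 - θ) * w0 ^ 2 + θ * w1 ^ 2 := by
      rw [hw]
      nlinarith [mul_nonneg (mul_nonneg h0 hθ) (sq_nonneg (w0 - w1))]
    linarith
  · push Not at hcase
    obtain ⟨hA, hB, hC⟩ := hcase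
    rw [phi_pos_eq hA hB hC.le]
    have q0 : a0 * b0 - c0 ^ 2 + w0 ^ 2 ≤ phi a0 b0 c0 w0 := by
      refine det_le_phi (a' := a1 - a0) (b' := b1 - b0) (c' := c1 - c0) (w' := w1 - w0) (s := θ)
        hdir ?_ ?_
      · rw [show a0 + θ * (a1 - a0) = a by rw [ha]; ring]; exact hA
      · rw [show a0 + θ * (a1 - a0) = a by rw [ha]; ring,
          show b0 + θ * (b1 - b0) = b by rw [hb]; ring,
          show c0 + θ * (c1 - c0) = c by rw [hc]; ring]
        exact hC
    have q1 : a1 * b1 - c1 ^ 2 + w1 ^ 2 ≤ phi a1 b1 c1 w1 := by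
      refine det_le_phi (a' := a0 - a1) (b' := b0 - b1) (c' := c0 - c1) (w' := w0 - w1) (s := 1 - θ)
        (by nlinarith) ?_ ?_
      · rw [show a1 + (1 - θ) * (a0 - a1) = a by rw [ha]; ring]; exact hA
      · rw [show a1 + (1 - θ) * (a0 - a1) = a by rw [ha]; ring,
          show b1 + (1 - θ) * (b0 - b1) = b by rw [hb]; ring,
          show c1 + (1 - θ) * (c0 - c1) = c by rw [hc]; ring]
        exact hC
    have e1 := mul_le_mul_of_nonneg_left q0 hθ
    have e2 := mul_le_mul_of_nonneg_left q1 h0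
    have e3 : a * b - c ^ 2 + w ^ 2 = (1 - θ) * (a0 * b0 - c0 ^ 2 + w0 ^ 2)
        + θ * (a1 * b1 - c1 ^ 2 + w1 ^ 2)
        - θ * (1 - θ) * ((a1 - a0) * (b1 - b0) - (c1 - c0) ^ 2 + (w1 - w0) ^ 2) := by
      rw [ha, hb, hc, hw]; ring
    rw [e3, hdir]
    nlinarith

/-- The matrix function. -/
noncomputable def Phi (σ α β γ : ℝ) (X : Mat (p + 2) (q + 2)) : ℝ :=
  phi (σ * X 0 0 - α) (σ * X 1 1 - β) (σ * ((X 0 1 + X 1 0) / 2) - γ) ((X 0 1 - X 1 0) / 2)

lemma Phi_rankOneConvex {σ : ℝ} (hσ : σ ^ 2 = 1) (α β γ : ℝ) :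
    RankOneConvex (Phi (p := p) (q := q) σ α β γ) := by
  intro A B hB
  have hm := minor_eq_zero hB
  refine ⟨convex_univ, ?_⟩
  intro x _ y _ u v hu hv huv
  have hu' : u = 1 - v := by linarith
  subst hu'
  simp only [smul_eq_mul, Phi, Matrix.add_apply, Matrix.smul_apply]
  have h := phi_convex (θ := v)
    (a0 := σ * (A 0 0 + x * B 0 0) - α) (b0 := σ * (A 1 1 + x * B 1 1) - β)
    (c0 := σ * ((A 0 1 + x * B 0 1 + (A 1 0 + x * B 1 0)) / 2) - γ)
    (w0 := (A 0 1 + x * B 0 1 - (A 1 0 + x * B 1 0)) / 2)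
    (a1 := σ * (A 0 0 + y * B 0 0) - α) (b1 := σ * (A 1 1 + y * B 1 1) - β)
    (c1 := σ * ((A 0 1 + y * B 0 1 + (A 1 0 + y * B 1 0)) / 2) - γ)
    (w1 := (A 0 1 + y * B 0 1 - (A 1 0 + y * B 1 0)) / 2)
    hv (by linarith) (by
      have e1 : (σ * (A 0 0 + y * B 0 0) - α - (σ * (A 0 0 + x * B 0 0) - α)) *
          (σ * (A 1 1 + y * B 1 1) - β - (σ * (A 1 1 + x * B 1 1) - β))
          = σ ^ 2 * (y - x) ^ 2 * (B 0 0 * B 1 1) := by ring
      have e2 : (σ * ((A 0 1 + y * B 0 1 + (A 1 0 + y * B 1 0)) / 2) - γ -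
          (σ * ((A 0 1 + x * B 0 1 + (A 1 0 + x * B 1 0)) / 2) - γ)) ^ 2
          = σ ^ 2 * (y - x) ^ 2 * ((B 0 1 + B 1 0) / 2) ^ 2 := by ring
      rw [e1, e2, hσ, hm]
      ring)
  have e : ∀ {a a' b b' c c' w w' : ℝ}, a = a' → b = b' → c = c' → w = w' →
      phi a b c w = phi a' b' c' w' := by
    rintro a a' b b' c c' w w' rfl rfl rfl rfl
    rfl
  calc _ = _ := e (by ring) (by ring) (by ring) (by ring)
    _ ≤ _ := h

end Functions

/-! ### Growth of the test functions -/

section Growth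

variable {n m : ℕ}

lemma abs_entry_le (X B : Mat n m) (i : Fin n) (j : Fin m) : |X i j - B i j| ≤ frobDist X B := by
  unfold frobDist
  apply Real.abs_le_sqrt
  calc (X i j - B i j) ^ 2 ≤ ∑ j', (X i j' - B i j') ^ 2 :=
        Finset.single_le_sum (f := fun j' => (X i j' - B i j') ^ 2) (fun _ _ => sq_nonneg _)
          (Finset.mem_univ j)
    _ ≤ _ := Finset.single_le_sum (f := fun i' => ∑ j', (X i' j' - B i' j') ^ 2)
          (fun _ _ => Finset.sum_nonneg fun _ _ => sq_nonneg _) (Finset.mem_univ i)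

lemma frobDist_nonneg (X B : Mat n m) : 0 ≤ frobDist X B := Real.sqrt_nonneg _

lemma exists_distTo {K : Set (Mat n m)} (hK : K.Finite) (hne : K.Nonempty) (X : Mat n m) :
    ∃ B ∈ K, distTo K X = frobDist X B := by
  have h := (hne.image (fun B => frobDist X B)).csInf_mem (hK.image _)
  obtain ⟨B, hB, hB'⟩ := h
  exact ⟨B, hB, hB'.symm⟩

lemma growth_of_forall {K : Set (Mat n m)} (hK : K.Finite) (hne : K.Nonempty)
    {f : Mat n m → ℝ}
    (h : ∀ B ∈ K, ∃ L : ℝ, 0 ≤ L ∧ ∀ X, f X ≤ L * frobDist X B + 2 * frobDist X B ^ 2)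
    (ε : ℝ) (hε : 0 < ε) : ∃ M : ℝ, 0 < M ∧ ∀ X, f X ≤ ε + M * distTo K X ^ 2 := by
  classical
  choose! L hL0 hL using h
  refine ⟨2 + ∑ B ∈ hK.toFinset, L B ^ 2 / (4 * ε), by positivity, fun X => ?_⟩
  obtain ⟨B, hB, hd⟩ := exists_distTo hK hne X
  rw [hd]
  have h1 := hL B hB X
  have h2 : L B ^ 2 / (4 * ε) ≤ ∑ B ∈ hK.toFinset, L B ^ 2 / (4 * ε) :=
    Finset.single_le_sum (f := fun B => L B ^ 2 / (4 * ε)) (fun _ _ => by positivity)
      (by simpa using hB)
  have h3 : L B * frobDist X B ≤ ε + L B ^ 2 / (4 * ε) * frobDist X B ^ 2 := by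
    have : 0 ≤ (2 * ε - L B * frobDist X B) ^ 2 / (4 * ε) := by positivity
    have e : (2 * ε - L B * frobDist X B) ^ 2 / (4 * ε)
        = ε - L B * frobDist X B + L B ^ 2 / (4 * ε) * frobDist X B ^ 2 := by
      field_simp
      ring
    linarith
  have h4 := mul_le_mul_of_nonneg_right h2 (sq_nonneg (frobDist X B))
  linarith

lemma phi_growth {aB bB cB a b c w r : ℝ} (hr : 0 ≤ r)
    (hB : max 0 aB * max 0 bB ≤ cB ^ 2)
    (ha : |a - aB| ≤ r) (hb : |b - bB| ≤ r) (hc : |c - cB| ≤ r) (hw : |w| ≤ r) :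
    phi a b c w ≤ (max 0 aB + max 0 bB + 2 * |cB|) * r + 2 * r ^ 2 := by
  have ha' : max 0 a ≤ max 0 aB + r := by
    apply max_le
    · have := le_max_left 0 aB; linarith
    · have := le_max_right 0 aB; linarith [(abs_le.1 ha).2]
  have hb' : max 0 b ≤ max 0 bB + r := by
    apply max_le
    · have := le_max_left 0 bB; linarith
    · have := le_max_right 0 bB; linarith [(abs_le.1 hb).2]
  have ha0 := le_max_left 0 aB
  have hb0 := le_max_left 0 bB
  have hab : max 0 a * max 0 b ≤ (max 0 aB + r) * (max 0 bB + r) :=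
    mul_le_mul ha' hb' (le_max_left _ _) (by linarith)
  have hw' : w ^ 2 ≤ r ^ 2 := by
    rw [← sq_abs w]
    exact pow_le_pow_left₀ (abs_nonneg _) hw 2
  have hc' : cB ^ 2 - 2 * |cB| * r ≤ c ^ 2 := by
    have e1 : c ^ 2 = cB ^ 2 + 2 * (cB * (c - cB)) + (c - cB) ^ 2 := by ring
    have e2 : -(|cB| * r) ≤ cB * (c - cB) := by
      have := neg_abs_le (cB * (c - cB))
      rw [abs_mul] at this
      have := mul_le_mul_of_nonneg_left hc (abs_nonneg cB)
      linarith
    nlinarith [sq_nonneg (c - cB)]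
  have hL : 0 ≤ (max 0 aB + max 0 bB + 2 * |cB|) * r := by
    have := abs_nonneg cB
    positivity
  unfold phi
  have : max 0 (max 0 a * max 0 b - c ^ 2) ≤ (max 0 aB + max 0 bB + 2 * |cB|) * r + r ^ 2 := by
    apply max_le
    · positivity
    · nlinarith
  linarith

variable {p q : ℕ}

/-- Hypothesis under which `Phi` vanishes at `B`. -/
def PhiZero (σ α β γ : ℝ) (B : Mat (p + 2) (q + 2)) : Prop :=
  B 0 1 = B 1 0 ∧ max 0 (σ * B 0 0 - α) * max 0 (σ * B 1 1 - β)
    ≤ (σ * ((B 0 1 + B 1 0) / 2) - γ) ^ 2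

lemma Phi_growth {σ α β γ : ℝ} (hσ : |σ| = 1) {B : Mat (p + 2) (q + 2)}
    (hB : PhiZero σ α β γ B) :
    ∃ L : ℝ, 0 ≤ L ∧ ∀ X, Phi σ α β γ X ≤ L * frobDist X B + 2 * frobDist X B ^ 2 := by
  obtain ⟨hs, hz⟩ := hB
  refine ⟨max 0 (σ * B 0 0 - α) + max 0 (σ * B 1 1 - β)
    + 2 * |σ * ((B 0 1 + B 1 0) / 2) - γ|, by positivity, fun X => ?_⟩
  have h00 := abs_entry_le X B 0 0
  have h11 := abs_entry_le X B 1 1
  have h01 := abs_entry_le X B 0 1
  have h10 := abs_entry_le X B 1 0
  unfold Phi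
  refine phi_growth (frobDist_nonneg _ _) hz ?_ ?_ ?_ ?_
  · rw [show σ * X 0 0 - α - (σ * B 0 0 - α) = σ * (X 0 0 - B 0 0) by ring, abs_mul, hσ, one_mul]
    exact h00
  · rw [show σ * X 1 1 - β - (σ * B 1 1 - β) = σ * (X 1 1 - B 1 1) by ring, abs_mul, hσ, one_mul]
    exact h11
  · rw [show σ * ((X 0 1 + X 1 0) / 2) - γ - (σ * ((B 0 1 + B 1 0) / 2) - γ)
      = σ * (((X 0 1 - B 0 1) + (X 1 0 - B 1 0)) / 2) by ring, abs_mul, hσ, one_mul]
    rw [abs_le] at *
    constructor <;> linarith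
  · rw [abs_le] at *
    constructor <;> linarith

lemma sq_entry_growth {B : Mat n m} {i : Fin n} {j : Fin m} (hB : B i j = 0) :
    ∃ L : ℝ, 0 ≤ L ∧ ∀ X : Mat n m, (X i j) ^ 2 ≤ L * frobDist X B + 2 * frobDist X B ^ 2 := by
  refine ⟨0, le_rfl, fun X => ?_⟩
  have h := abs_entry_le X B i j
  rw [hB, sub_zero] at h
  have : (X i j) ^ 2 ≤ frobDist X B ^ 2 := by
    rw [← sq_abs]
    exact pow_le_pow_left₀ (abs_nonneg _) h 2
  nlinarith [sq_nonneg (frobDist X B)]

lemma sq_diff_growth {B : Mat n m} {i i' : Fin n} {j j' : Fin m} (hB : B i j = B i' j') :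
    ∃ L : ℝ, 0 ≤ L ∧ ∀ X : Mat n m, ((X i j - X i' j') / 2) ^ 2
      ≤ L * frobDist X B + 2 * frobDist X B ^ 2 := by
  refine ⟨0, le_rfl, fun X => ?_⟩
  have h := abs_entry_le X B i j
  have h' := abs_entry_le X B i' j'
  have h2 : |(X i j - X i' j') / 2| ≤ frobDist X B := by
    rw [abs_le] at *
    constructor <;> linarith
  have : ((X i j - X i' j') / 2) ^ 2 ≤ frobDist X B ^ 2 := by
    rw [← sq_abs]
    exact pow_le_pow_left₀ (abs_nonneg _) h2 2
  nlinarith [sq_nonneg (frobDist X B)]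

lemma convexOn_sq_affine (a b : ℝ) : ConvexOn ℝ Set.univ (fun t : ℝ => (a + t * b) ^ 2) := by
  refine ⟨convex_univ, ?_⟩
  intro x _ y _ u v hu hv huv
  have hu' : u = 1 - v := by linarith
  subst hu'
  simp only [smul_eq_mul]
  nlinarith [mul_nonneg (mul_nonneg hu hv) (sq_nonneg (b * (x - y)))]

lemma rankOneConvex_sq_entry (i : Fin n) (j : Fin m) :
    RankOneConvex (fun X : Mat n m => (X i j) ^ 2) := by
  intro A B _
  simpa using convexOn_sq_affine (A i j) (B i j)

lemma rankOneConvex_sq_diff (i i' : Fin n) (j j' : Fin m) :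
    RankOneConvex (fun X : Mat n m => ((X i j - X i' j') / 2) ^ 2) := by
  intro A B _
  have h := convexOn_sq_affine ((A i j - A i' j') / 2) ((B i j - B i' j') / 2)
  convert h using 2 with t
  simp only [Matrix.add_apply, Matrix.smul_apply, smul_eq_mul]
  ring

end Growth

/-! ### The four matrices -/

section Example

variable {p q : ℕ}

/-- The symmetric block `[[a, c], [c, b]]` in the upper left corner. -/
def E (a b c : ℝ) : Mat (p + 2) (q + 2) := fun i j =>
  if i = 0 then (if j = 0 then a else if j = 1 then c else 0)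
  else if i = 1 then (if j = 0 then c else if j = 1 then b else 0) else 0

@[simp] lemma E_zero_zero (a b c : ℝ) : (E a b c : Mat (p + 2) (q + 2)) 0 0 = a := by simp [E]
@[simp] lemma E_zero_one (a b c : ℝ) : (E a b c : Mat (p + 2) (q + 2)) 0 1 = c := by simp [E]
@[simp] lemma E_one_zero (a b c : ℝ) : (E a b c : Mat (p + 2) (q + 2)) 1 0 = c := by simp [E]
@[simp] lemma E_one_one (a b c : ℝ) : (E a b c : Mat (p + 2) (q + 2)) 1 1 = b := by simp [E]

lemma E_row (a b c : ℝ) {i : Fin (p + 2)} (j : Fin (q + 2)) (h0 : i ≠ 0) (h1 : i ≠ 1) :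
    (E a b c : Mat (p + 2) (q + 2)) i j = 0 := by simp [E, h0, h1]

lemma E_col (a b c : ℝ) (i : Fin (p + 2)) {j : Fin (q + 2)} (h0 : j ≠ 0) (h1 : j ≠ 1) :
    (E a b c : Mat (p + 2) (q + 2)) i j = 0 := by simp [E, h0, h1]

lemma E_add (a b c a' b' c' : ℝ) :
    (E a b c + E a' b' c' : Mat (p + 2) (q + 2)) = E (a + a') (b + b') (c + c') := by
  ext i j
  simp only [E, Matrix.add_apply]
  split_ifs <;> simp

lemma E_smul (t a b c : ℝ) :
    (t • E a b c : Mat (p + 2) (q + 2)) = E (t * a) (t * b) (t * c) := by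
  ext i j
  simp only [E, Matrix.smul_apply, smul_eq_mul]
  split_ifs <;> simp

lemma E_zero : (E 0 0 0 : Mat (p + 2) (q + 2)) = 0 := by
  ext i j
  simp [E]

/-- `E (x x) (y y) (x y)` is a rank-one matrix. -/
lemma rank_E {a b c x y : ℝ} (σ : ℝ) (ha : a = σ * (x * x)) (hb : b = σ * (y * y))
    (hc : c = σ * (x * y))
    (hne : a ≠ 0 ∨ b ≠ 0) : (E a b c : Mat (p + 2) (q + 2)).rank = 1 := by
  have hle : (E a b c : Mat (p + 2) (q + 2)).rank ≤ 1 := by
    have : (E a b c : Mat (p + 2) (q + 2)) = Matrix.vecMulVec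
        (fun i => σ * (if i = 0 then x else if i = 1 then y else 0))
        (fun j => if j = 0 then x else if j = 1 then y else 0) := by
      ext i j
      simp only [E, Matrix.vecMulVec_apply]
      split_ifs <;> simp [*] <;> ring
    rw [this]
    exact Matrix.rank_vecMulVec_le _ _
  have hge : 1 ≤ (E a b c : Mat (p + 2) (q + 2)).rank := by
    have key : ∀ (i : Fin (p + 2)) (j : Fin (q + 2)), (E a b c : Mat (p + 2) (q + 2)) i j ≠ 0 →
        1 ≤ (E a b c : Mat (p + 2) (q + 2)).rank := by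
      intro i j hij
      have h1 := Matrix.rank_submatrix_le (E a b c : Mat (p + 2) (q + 2))
        (fun _ : Fin 1 => i) (fun _ : Fin 1 => j)
      have h2 : ((E a b c : Mat (p + 2) (q + 2)).submatrix
          (fun _ : Fin 1 => i) (fun _ : Fin 1 => j)).det ≠ 0 := by
        simpa [Matrix.det_fin_one] using hij
      have h3 := Matrix.rank_of_det_ne_zero h2
      simp only [Fintype.card_fin] at h3
      omega
    rcases hne with h | h
    · exact key 0 0 (by simpa using h)
    · exact key 1 1 (by simpa using h)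
  omega

/-- The four-point set. -/
def K4 (p q : ℕ) : Set (Mat (p + 2) (q + 2)) :=
  {E 1 0 0, E 0 1 0, E (-(1 / 2)) (-(1 / 2)) (-(1 / 2)), E (-(1 / 2)) (-(1 / 2)) (1 / 2)}

lemma K4_finite : (K4 p q).Finite := by
  unfold K4
  exact Set.toFinite _

lemma K4_nonempty : (K4 p q).Nonempty := ⟨E 1 0 0, by simp [K4]⟩

lemma exists_E_of_mem {B : Mat (p + 2) (q + 2)} (h : B ∈ K4 p q) : ∃ a b c, B = E a b c := by
  simp only [K4, Set.mem_insert_iff, Set.mem_singleton_iff] at h
  rcases h with h | h | h | h <;> exact ⟨_, _, _, h⟩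

lemma distTo_pos : 0 < distTo (K4 p q) 0 := by
  obtain ⟨B, hB, hd⟩ := exists_distTo K4_finite K4_nonempty (0 : Mat (p + 2) (q + 2))
  rw [hd]
  have h00 := abs_entry_le (0 : Mat (p + 2) (q + 2)) B 0 0
  have h11 := abs_entry_le (0 : Mat (p + 2) (q + 2)) B 1 1
  simp only [K4, Set.mem_insert_iff, Set.mem_singleton_iff] at hB
  rcases hB with rfl | rfl | rfl | rfl
  · refine lt_of_lt_of_le ?_ h00; simp
  · refine lt_of_lt_of_le ?_ h11; simp
  · refine lt_of_lt_of_le ?_ h00; simp
  · refine lt_of_lt_of_le ?_ h00; simp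

lemma ncard_K4 : (K4 p q).ncard = 4 := by
  have d : ∀ {a b c a' b' c' : ℝ}, (a ≠ a' ∨ b ≠ b' ∨ c ≠ c') →
      (E a b c : Mat (p + 2) (q + 2)) ≠ E a' b' c' := by
    intro a b c a' b' c' h heq
    have h0 : (E a b c : Mat (p + 2) (q + 2)) 0 0 = (E a' b' c' : Mat (p + 2) (q + 2)) 0 0 := by
      rw [heq]
    have h1 : (E a b c : Mat (p + 2) (q + 2)) 1 1 = (E a' b' c' : Mat (p + 2) (q + 2)) 1 1 := by
      rw [heq]
    have h2 : (E a b c : Mat (p + 2) (q + 2)) 0 1 = (E a' b' c' : Mat (p + 2) (q + 2)) 0 1 := by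
      rw [heq]
    simp only [E_zero_zero, E_one_one, E_zero_one] at h0 h1 h2
    tauto
  unfold K4
  rw [Set.ncard_insert_of_notMem, Set.ncard_insert_of_notMem, Set.ncard_pair]
  · exact d (by norm_num)
  · simp only [Set.mem_insert_iff, Set.mem_singleton_iff, not_or]
    exact ⟨d (by norm_num), d (by norm_num)⟩
  · simp only [Set.mem_insert_iff, Set.mem_singleton_iff, not_or]
    exact ⟨d (by norm_num), d (by norm_num), d (by norm_num)⟩

lemma Phi_growth_K4 {σ α β γ : ℝ} (hσ : |σ| = 1)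
    (h1 : max 0 (σ * 1 - α) * max 0 (σ * 0 - β) ≤ (σ * 0 - γ) ^ 2)
    (h2 : max 0 (σ * 0 - α) * max 0 (σ * 1 - β) ≤ (σ * 0 - γ) ^ 2)
    (h3 : max 0 (σ * -(1 / 2) - α) * max 0 (σ * -(1 / 2) - β) ≤ (σ * -(1 / 2) - γ) ^ 2)
    (h4 : max 0 (σ * -(1 / 2) - α) * max 0 (σ * -(1 / 2) - β) ≤ (σ * (1 / 2) - γ) ^ 2) :
    ∀ B ∈ K4 p q, ∃ L : ℝ, 0 ≤ L ∧ ∀ X, Phi σ α β γ X
      ≤ L * frobDist X B + 2 * frobDist X B ^ 2 := by
  intro B hB
  apply Phi_growth hσ
  simp only [K4, Set.mem_insert_iff, Set.mem_singleton_iff] at hB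
  rcases hB with rfl | rfl | rfl | rfl <;> refine ⟨by simp, ?_⟩ <;>
    simp only [E_zero_zero, E_one_one, E_zero_one, E_one_zero, add_self_div_two]
  · exact h1
  · exact h2
  · exact h3
  · exact h4

/-- For a nonzero symmetric block of rank one, one of the endpoints is detected. -/
lemma detect {C D : Mat (p + 2) (q + 2)} {μ : ℝ} (hμ0 : 0 < μ) (hμ1 : μ < 1)
    (h : (0 : Mat (p + 2) (q + 2)) = μ • C + (1 - μ) • D) (hr : (C - D).rank = 1) :
    ∃ f : Mat (p + 2) (q + 2) → ℝ, RankOneConvex f ∧ (∀ X, 0 ≤ f X) ∧ (0 < f C ∨ 0 < f D) ∧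
      ∀ B ∈ K4 p q, ∃ L : ℝ, 0 ≤ L ∧ ∀ X, f X ≤ L * frobDist X B + 2 * frobDist X B ^ 2 := by
  -- the entries of `C` and `D`
  have hE : ∀ i j, μ * C i j + (1 - μ) * D i j = 0 := by
    intro i j
    have := congrFun (congrFun h i) j
    simpa using this.symm
  have hne : C - D ≠ 0 := by
    intro h0
    rw [h0, Matrix.rank_zero] at hr
    exact zero_ne_one hr
  have hm := minor_eq_zero hr
  simp only [Matrix.sub_apply] at hm
  have hD : ∀ i j, D i j = -(μ / (1 - μ)) * C i j := by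
    intro i j
    have := hE i j
    have h1 : (1 - μ) ≠ 0 := by linarith
    field_simp
    linarith
  have hCne : ∃ i j, C i j ≠ 0 := by
    by_contra hcon
    push Not at hcon
    apply hne
    ext i j
    rw [Matrix.sub_apply, hD, hcon]
    simp
  have hmC : C 0 0 * C 1 1 = C 0 1 * C 1 0 := by
    rw [hD, hD, hD, hD] at hm
    have e : (1 + μ / (1 - μ)) ^ 2 * (C 0 0 * C 1 1 - C 0 1 * C 1 0) = 0 := by
      linear_combination hm
    have h1 : 0 < μ / (1 - μ) := div_pos hμ0 (by linarith)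
    have h2 : (1 + μ / (1 - μ)) ^ 2 ≠ 0 := by positivity
    have := (mul_eq_zero.1 e).resolve_left h2
    linarith
  have hν : 0 < μ / (1 - μ) := div_pos hμ0 (by linarith)
  set ν := μ / (1 - μ) with hνdef
  by_cases hout : ∃ i j, C i j ≠ 0 ∧ ∀ B ∈ K4 p q, B i j = 0
  · obtain ⟨i, j, hij, hB⟩ := hout
    refine ⟨fun X => (X i j) ^ 2, rankOneConvex_sq_entry i j, fun X => sq_nonneg _,
      Or.inl (by positivity), fun B hB' => sq_entry_growth (hB B hB')⟩
  push Not at hout
  have hout' : ∀ i j, ((i ≠ 0 ∧ i ≠ 1) ∨ (j ≠ 0 ∧ j ≠ 1)) → C i j = 0 := by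
    intro i j hij
    by_contra hc
    obtain ⟨B, hB, hB'⟩ := hout i j hc
    obtain ⟨a, b, c, rfl⟩ := exists_E_of_mem hB
    rcases hij with ⟨h0, h1⟩ | ⟨h0, h1⟩
    · exact hB' (E_row a b c j h0 h1)
    · exact hB' (E_col a b c i h0 h1)
  by_cases hsym : C 0 1 = C 1 0
  swap
  · refine ⟨fun X => ((X 0 1 - X 1 0) / 2) ^ 2, rankOneConvex_sq_diff 0 1 1 0,
      fun X => sq_nonneg _, Or.inl ?_, fun B hB => sq_diff_growth ?_⟩
    · have : C 0 1 - C 1 0 ≠ 0 := sub_ne_zero.2 hsym
      positivity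
    · obtain ⟨a, b, c, rfl⟩ := exists_E_of_mem hB
      simp
  by_cases hoff : C 0 1 = 0
  swap
  · -- positive endpoint
    have key : ∀ P : Mat (p + 2) (q + 2), P 0 1 = P 1 0 → P 0 1 ≠ 0 →
        P 0 0 * P 1 1 = P 0 1 * P 1 0 → 0 < P 0 0 → ∃ γ : ℝ, γ ≠ 0 ∧ 0 < Phi 1 0 0 γ P := by
      intro P h1 h2 h3 h4
      refine ⟨P 0 1, h2, ?_⟩
      have h5 : 0 < P 1 1 := by
        have : 0 < P 0 0 * P 1 1 := by rw [h3, ← h1]; exact mul_self_pos.2 h2
        exact (pos_iff_pos_of_mul_pos this).1 h4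
      unfold Phi
      rw [← h1]
      rw [phi_pos_eq (by simpa using h4) (by simpa using h5)]
      · have := mul_pos h4 h5
        ring_nf
        linarith
      · have := mul_pos h4 h5
        ring_nf
        linarith
    have fin : ∀ γ : ℝ, γ ≠ 0 → ∀ B ∈ K4 p q, ∃ L : ℝ, 0 ≤ L ∧ ∀ X, Phi 1 0 0 γ X
        ≤ L * frobDist X B + 2 * frobDist X B ^ 2 := by
      intro γ _
      apply Phi_growth_K4 (by simp)
      all_goals
        norm_num
        try positivity
    have hC00 : C 0 0 ≠ 0 := by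
      intro h0
      rw [h0, zero_mul, ← hsym] at hmC
      exact hoff (by simpa using hmC.symm)
    rcases lt_or_gt_of_ne hC00 with hneg | hpos
    · obtain ⟨γ, hγ, hpos⟩ := key D (by rw [hD, hD, hsym]) (by
        rw [hD]; exact mul_ne_zero (by linarith) hoff) (by
        rw [hD, hD, hD, hD]; linear_combination ν ^ 2 * hmC) (by
        rw [hD]; nlinarith)
      exact ⟨Phi 1 0 0 γ, Phi_rankOneConvex (by norm_num) 0 0 γ, fun X => phi_nonneg _ _ _ _,
        Or.inr hpos, fin γ hγ⟩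
    · obtain ⟨γ, hγ, hpos⟩ := key C hsym hoff hmC hpos
      exact ⟨Phi 1 0 0 γ, Phi_rankOneConvex (by norm_num) 0 0 γ, fun X => phi_nonneg _ _ _ _,
        Or.inl hpos, fin γ hγ⟩
  · -- diagonal case: the negative endpoint
    have hC10 : C 1 0 = 0 := by rw [← hsym]; exact hoff
    have fin0 : ∀ s : ℝ, 0 < s → ∀ B ∈ K4 p q, ∃ L : ℝ, 0 ≤ L ∧ ∀ X, Phi (-1) (s / 2) (-(s / 2)) 0 X
        ≤ L * frobDist X B + 2 * frobDist X B ^ 2 := by
      intro s hs
      apply Phi_growth_K4 (by simp)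
      · rw [max_eq_left (by linarith)]; simp
      · rw [max_eq_left (by linarith)]; simp
      · rcases le_total s 1 with h1 | h1
        · rw [max_eq_right (by linarith), max_eq_right (by linarith)]; nlinarith
        · rw [max_eq_left (by linarith)]; norm_num
      · rcases le_total s 1 with h1 | h1
        · rw [max_eq_right (by linarith), max_eq_right (by linarith)]; nlinarith
        · rw [max_eq_left (by linarith)]; norm_num
    have fin1 : ∀ s : ℝ, 0 < s → ∀ B ∈ K4 p q, ∃ L : ℝ, 0 ≤ L ∧ ∀ X, Phi (-1) (-(s / 2)) (s / 2) 0 X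
        ≤ L * frobDist X B + 2 * frobDist X B ^ 2 := by
      intro s hs
      apply Phi_growth_K4 (by simp)
      · rw [max_eq_left (b := -1 * 0 - s / 2) (by linarith)]; simp
      · rw [max_eq_left (b := -1 * 1 - s / 2) (by linarith)]; simp
      · rcases le_total s 1 with h1 | h1
        · rw [max_eq_right (by linarith), max_eq_right (by linarith)]; nlinarith
        · rw [max_eq_left (b := -1 * -(1 / 2) - s / 2) (by linarith)]; norm_num
      · rcases le_total s 1 with h1 | h1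
        · rw [max_eq_right (by linarith), max_eq_right (by linarith)]; nlinarith
        · rw [max_eq_left (b := -1 * -(1 / 2) - s / 2) (by linarith)]; norm_num
    have pos0 : ∀ P : Mat (p + 2) (q + 2), P 0 1 = 0 → P 1 0 = 0 → P 1 1 = 0 → P 0 0 < 0 →
        0 < Phi (-1) (-P 0 0 / 2) (-(-P 0 0 / 2)) 0 P := by
      intro P h01 h10 h11 h00
      unfold Phi
      rw [h01, h10, h11, phi_pos_eq (by linarith) (by linarith) (by nlinarith)]
      nlinarith
    have pos1 : ∀ P : Mat (p + 2) (q + 2), P 0 1 = 0 → P 1 0 = 0 → P 0 0 = 0 → P 1 1 < 0 →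
        0 < Phi (-1) (-(-P 1 1 / 2)) (-P 1 1 / 2) 0 P := by
      intro P h01 h10 h00 h11
      unfold Phi
      rw [h01, h10, h00, phi_pos_eq (by linarith) (by linarith) (by nlinarith)]
      nlinarith
    have hD01 : D 0 1 = 0 := by rw [hD, hoff, mul_zero]
    have hD10 : D 1 0 = 0 := by rw [hD, hC10, mul_zero]
    have hprod : C 0 0 * C 1 1 = 0 := by rw [hmC, hoff, zero_mul]
    by_cases hC00 : C 0 0 = 0
    · have hC11 : C 1 1 ≠ 0 := by
        intro h11
        obtain ⟨i, j, hij⟩ := hCne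
        apply hij
        by_cases hi : i ≠ 0 ∧ i ≠ 1
        · exact hout' i j (Or.inl hi)
        by_cases hj : j ≠ 0 ∧ j ≠ 1
        · exact hout' i j (Or.inr hj)
        have hi' : i = 0 ∨ i = 1 := by tauto
        have hj' : j = 0 ∨ j = 1 := by tauto
        rcases hi' with rfl | rfl <;> rcases hj' with rfl | rfl <;> assumption
      have hD00 : D 0 0 = 0 := by rw [hD, hC00, mul_zero]
      rcases lt_or_gt_of_ne hC11 with hneg | hpos
      · exact ⟨Phi (-1) (-(-C 1 1 / 2)) (-C 1 1 / 2) 0, Phi_rankOneConvex (by norm_num) _ _ _,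
          fun X => phi_nonneg _ _ _ _, Or.inl (pos1 C hoff hC10 hC00 hneg),
          fin1 (-C 1 1) (by linarith)⟩
      · have hD11 : D 1 1 < 0 := by rw [hD]; nlinarith
        exact ⟨Phi (-1) (-(-D 1 1 / 2)) (-D 1 1 / 2) 0, Phi_rankOneConvex (by norm_num) _ _ _,
          fun X => phi_nonneg _ _ _ _, Or.inr (pos1 D hD01 hD10 hD00 hD11),
          fin1 (-D 1 1) (by linarith)⟩
    · have hC11 : C 1 1 = 0 := (mul_eq_zero.1 hprod).resolve_left hC00
      have hD11 : D 1 1 = 0 := by rw [hD, hC11, mul_zero]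
      rcases lt_or_gt_of_ne hC00 with hneg | hpos
      · exact ⟨Phi (-1) (-C 0 0 / 2) (-(-C 0 0 / 2)) 0, Phi_rankOneConvex (by norm_num) _ _ _,
          fun X => phi_nonneg _ _ _ _, Or.inl (pos0 C hoff hC10 hC11 hneg),
          fin0 (-C 0 0) (by linarith)⟩
      · have hD00 : D 0 0 < 0 := by rw [hD]; nlinarith
        exact ⟨Phi (-1) (-D 0 0 / 2) (-(-D 0 0 / 2)) 0, Phi_rankOneConvex (by norm_num) _ _ _,
          fun X => phi_nonneg _ _ _ _, Or.inr (pos0 D hD01 hD10 hD11 hD00),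
          fin0 (-D 0 0) (by linarith)⟩

theorem zero_not_mem : (0 : Mat (p + 2) (q + 2)) ∉ consecutiveHull PartSplitting (K4 p q) := by
  apply not_mem_consecutiveHull distTo_pos
  intro C D μ hμ0 hμ1 h hr
  obtain ⟨f, h1, h2, h3, h4⟩ := detect hμ0 hμ1 h hr
  exact ⟨f, h1, h2, h3, growth_of_forall K4_finite K4_nonempty h4⟩

/-! ### The origin belongs to the rank-one convex hull -/

lemma RankOneConvex.continuous_line {n m : ℕ} {f : Mat n m → ℝ} (hf : RankOneConvex f)
    (A B : Mat n m) (hB : B.rank = 1) : Continuous (fun t : ℝ => f (A + t • B)) :=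
  continuousOn_univ.1 ((hf A B hB).continuousOn isOpen_univ)

/-- One step of the chain. -/
lemma RankOneConvex.step_le {n m : ℕ} {f : Mat n m → ℝ} (hf : RankOneConvex f)
    (P C : Mat n m) (hC : C.rank = 1) {t : ℝ} (h0 : 0 ≤ t) (h1 : t ≤ 1) :
    f (P + t • C) ≤ (1 - t) * f P + t * f (P + C) := by
  have h := (hf P C hC).2 (Set.mem_univ (0 : ℝ)) (Set.mem_univ (1 : ℝ))
    (by linarith : (0 : ℝ) ≤ 1 - t) h0 (by ring)
  simpa using h

theorem zero_mem : (0 : Mat (p + 2) (q + 2)) ∈ rankOneHull (K4 p q) := by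
  intro f hf
  set C1 : Mat (p + 2) (q + 2) := E 1 0 0 with hC1
  set C2 : Mat (p + 2) (q + 2) := E 0 1 0 with hC2
  set C3 : Mat (p + 2) (q + 2) := E (-(1 / 2)) (-(1 / 2)) (-(1 / 2)) with hC3
  set C4 : Mat (p + 2) (q + 2) := E (-(1 / 2)) (-(1 / 2)) (1 / 2) with hC4
  have r1 : C1.rank = 1 := rank_E (x := 1) (y := 0) 1 (by norm_num) (by norm_num) (by norm_num)
    (by norm_num)
  have r2 : C2.rank = 1 := rank_E (x := 0) (y := 1) 1 (by norm_num) (by norm_num) (by norm_num)
    (by norm_num)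
  have r3 : C3.rank = 1 := rank_E (x := 1) (y := 1) (-(1 / 2)) (by norm_num) (by norm_num)
    (by norm_num) (by norm_num)
  have r4 : C4.rank = 1 := rank_E (x := 1) (y := -1) (-(1 / 2)) (by norm_num) (by norm_num)
    (by norm_num) (by norm_num)
  have hsum : C1 + C2 + C3 + C4 = 0 := by
    rw [hC1, hC2, hC3, hC4, E_add, E_add, E_add, ← E_zero]
    norm_num
  have hbdd : BddAbove (f '' K4 p q) := (K4_finite.image f).bddAbove
  have s1 : f C1 ≤ sSup (f '' K4 p q) := le_csSup hbdd ⟨C1, by simp [K4, C1], rfl⟩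
  have s2 : f C2 ≤ sSup (f '' K4 p q) := le_csSup hbdd ⟨C2, by simp [K4, C2], rfl⟩
  have s3 : f C3 ≤ sSup (f '' K4 p q) := le_csSup hbdd ⟨C3, by simp [K4, C3], rfl⟩
  have s4 : f C4 ≤ sSup (f '' K4 p q) := le_csSup hbdd ⟨C4, by simp [K4, C4], rfl⟩
  set M : ℝ → ℝ := fun t => max (max (f C1) (f (C2 + t • C1)))
    (max ((1 - t) * f (C3 + t • C1) + t * f ((C3 + C2) + t • C1)) ((1 - t) * f C4 + t * f 0))
    with hM
  have hMc : Continuous M := by
    have c1 := hf.continuous_line C2 C1 r1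
    have c2 := hf.continuous_line C3 C1 r1
    have c3 := hf.continuous_line (C3 + C2) C1 r1
    have c4 : Continuous (fun t : ℝ => (1 - t) * f C4 + t * f 0) := by fun_prop
    have c5 : Continuous (fun t : ℝ => (1 - t) * f (C3 + t • C1)
        + t * f ((C3 + C2) + t • C1)) :=
      ((continuous_const.sub continuous_id).mul c2).add (continuous_id.mul c3)
    exact (continuous_const.max c1).max (c5.max c4)
  have hM0 : M 0 ≤ sSup (f '' K4 p q) := by
    simp only [hM, zero_smul, add_zero, sub_zero, one_mul, zero_mul]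
    exact max_le (max_le s1 s2) (max_le s3 s4)
  have hle : ∀ t : ℝ, 0 < t → t < 1 → f 0 ≤ M t := by
    intro t h0 h1
    have a1 : f C1 ≤ M t := (le_max_left _ _).trans (le_max_left _ _)
    have a2 : f (C2 + t • C1) ≤ M t := (le_max_right _ _).trans (le_max_left _ _)
    have a3 : (1 - t) * f (C3 + t • C1) + t * f ((C3 + C2) + t • C1) ≤ M t :=
      (le_max_left _ _).trans (le_max_right _ _)
    have a4 : (1 - t) * f C4 + t * f 0 ≤ M t := (le_max_right _ _).trans (le_max_right _ _)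
    -- the four steps of the chain
    have b1 := hf.step_le 0 C1 r1 h0.le h1.le
    have b2 := hf.step_le (0 + t • C1) C2 r2 h0.le h1.le
    have b3 := hf.step_le (0 + t • C1 + t • C2) C3 r3 h0.le h1.le
    have b4 := hf.step_le (0 + t • C1 + t • C2 + t • C3) C4 r4 h0.le h1.le
    have e0 : 0 + t • C1 + t • C2 + t • C3 + t • C4 = 0 := by
      have : 0 + t • C1 + t • C2 + t • C3 + t • C4 = t • (C1 + C2 + C3 + C4) := by module
      rw [this, hsum, smul_zero]
    have e1 : (0 : Mat (p + 2) (q + 2)) + C1 = C1 := zero_add _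
    have e2 : 0 + t • C1 + C2 = C2 + t • C1 := by module
    have e3 : 0 + t • C1 + t • C2 + C3 = (C3 + t • C1) + t • C2 := by module
    have e4 : 0 + t • C1 + t • C2 + t • C3 + C4 = C4 + t • (-C4) := by
      have h5 : 0 + t • C1 + t • C2 + t • C3 + C4
        = t • (C1 + C2 + C3 + C4) + (C4 + t • (-C4)) := by module
      rw [h5, hsum, smul_zero, zero_add]
    rw [e1] at b1
    rw [e2] at b2
    rw [e3] at b3
    rw [e4, e0] at b4
    have b3' := hf.step_le (C3 + t • C1) C2 r2 h0.le h1.le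
    have e5 : C3 + t • C1 + C2 = (C3 + C2) + t • C1 := by module
    rw [e5] at b3'
    have b4' : f (C4 + t • (-C4)) ≤ (1 - t) * f C4 + t * f 0 := by
      have h := (hf 0 C4 r4).2 (Set.mem_univ (1 : ℝ)) (Set.mem_univ (0 : ℝ))
        (by linarith : (0 : ℝ) ≤ 1 - t) h0.le (by ring)
      simp only [smul_eq_mul, mul_one, mul_zero, add_zero, one_smul, zero_smul, zero_add] at h
      have e6 : C4 + t • (-C4) = (1 - t) • C4 := by module
      rw [e6]
      exact h
    have c2' : f (C2 + t • C1) ≤ M t := a2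
    have c3' : f (C3 + t • C1 + t • C2) ≤ M t := b3'.trans a3
    have c4' : f (C4 + t • (-C4)) ≤ M t := b4'.trans a4
    have ht : 0 ≤ 1 - t := by linarith
    -- combine
    have g1 : f (0 + t • C1) ≤ (1 - t) * f 0 + t * M t :=
      b1.trans (by nlinarith)
    have g2 : f (0 + t • C1 + t • C2) ≤ (1 - t) * ((1 - t) * f 0 + t * M t) + t * M t := by
      refine b2.trans ?_
      have := mul_le_mul_of_nonneg_left g1 ht
      nlinarith
    have g3 : f (0 + t • C1 + t • C2 + t • C3) ≤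
        (1 - t) * ((1 - t) * ((1 - t) * f 0 + t * M t) + t * M t) + t * M t := by
      refine b3.trans ?_
      have := mul_le_mul_of_nonneg_left g2 ht
      nlinarith
    have g4 : f 0 ≤ (1 - t) * ((1 - t) * ((1 - t) * ((1 - t) * f 0 + t * M t) + t * M t)
        + t * M t) + t * M t := by
      refine b4.trans ?_
      have := mul_le_mul_of_nonneg_left g3 ht
      nlinarith
    have g5 : 0 ≤ (1 - (1 - t) ^ 4) * (M t - f 0) := by nlinarith
    have g6 : 0 < 1 - (1 - t) ^ 4 := by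
      have : (1 - t) ^ 4 < 1 := pow_lt_one₀ ht (by linarith) (by norm_num)
      linarith
    have := nonneg_of_mul_nonneg_right g5 g6
    linarith
  refine le_trans ?_ hM0
  have htend : Filter.Tendsto M (nhdsWithin 0 (Set.Ioi 0)) (nhds (M 0)) :=
    (hMc.tendsto 0).mono_left nhdsWithin_le_nhds
  refine ge_of_tendsto htend ?_
  filter_upwards [Ioo_mem_nhdsGT (show (0 : ℝ) < 1 by norm_num)] with t ht
  exact hle t ht.1 ht.2

end Example

/-- **Negative answer to Q1.** For all `n, m ≥ 2` there is a four-point set `K` of real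
`n × m` matrices and a matrix `A` (the zero matrix) which lies in the rank-one convex hull of `K`
but not in `L_c(K)`; this holds for the splitting that replaces a whole atom and also for the
more permissive one that may split only a part of the mass at a point. -/
theorem result (n m : ℕ) (hn : 2 ≤ n) (hm : 2 ≤ m) :
    ∃ K : Set (Mat n m), K.Finite ∧ K.ncard = 4 ∧
      ∃ A ∈ rankOneHull K, A ∉ consecutiveHull Splitting K ∧
        A ∉ consecutiveHull PartSplitting K := by
  obtain ⟨p, rfl⟩ := Nat.exists_eq_add_of_le' hn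
  obtain ⟨q, rfl⟩ := Nat.exists_eq_add_of_le' hm
  exact ⟨K4 p q, K4_finite, ncard_K4, 0, zero_mem,
    fun h => zero_not_mem (consecutiveHull_sub _ h), zero_not_mem⟩

end Pool.Agent.Results.MP_798c84_an.NotEqual
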